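import Pool.Agent.PFD.StmtsD3

/-! PFD, row FBW: the reduction of `R1 [W]`. -/

set_option autoImplicit false

namespace Pool.Agent.PFD.D3.H35

open MonoidAlgebra

theorem fbw : FbwStmt := by
  classical
  intro R F V R1 _ _ _ _ _ _ c Va W rho hdis hsup
  obtain ⟨f, hf⟩ : ∃ f : R1 →+* MonoidAlgebra F V,
      f = (MonoidAlgebra.mapDomainAlgHom F F Va.subtype).toRingHom.comp rho.q := ⟨_, rfl⟩
  have hfr : ∀ r, f r = MonoidAlgebra.mapDomainAlgHom F F Va.subtype (rho.q r) := fun r => by
    rw [hf]
    rfl
  obtain ⟨q, hq⟩ : ∃ q : MonoidAlgebra R1 W →+* MonoidAlgebra F V,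
      q = liftNCRingHom f ((MonoidAlgebra.of F V).comp W.subtype) (fun x y => Commute.all _ _) :=
    ⟨_, rfl⟩
  have hqs : ∀ (w : W) r, q (single w r) =
      MonoidAlgebra.mapDomainAlgHom F F Va.subtype (rho.q r) * MonoidAlgebra.of F V (w : V) := by
    intro w r
    rw [hq, liftNCRingHom_single, hfr]
    rfl
  -- coefficients
  have hc : ∀ (x : MonoidAlgebra R1 W) (u : Va) (w : W),
      (q x).coeff ((u : V) * w) = (rho.q (x.coeff w)).coeff u := by
    intro x u w
    induction x using MonoidAlgebra.induction_linear with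
    | zero => simp
    | add a b ha hb => rw [map_add, coeff_add, Finsupp.add_apply, ha, hb, coeff_add,
        Finsupp.add_apply, map_add, coeff_add, Finsupp.add_apply]
    | single w' r =>
      rw [hqs]
      have h1 : MonoidAlgebra.of F V (w' : V) = single (w' : V) (1 : F) := rfl
      have h2 : ((MonoidAlgebra.mapDomainAlgHom F F Va.subtype (rho.q r)) *
          MonoidAlgebra.of F V (w' : V)).coeff ((u : V) * w) =
          (MonoidAlgebra.mapDomainAlgHom F F Va.subtype (rho.q r)).coeff
            ((u : V) * w * (w' : V)⁻¹) * 1 := by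
        rw [h1]
        refine coeff_mul_single_eq_coeff_mul _ fun m' _ => ?_
        exact ⟨fun h => by rw [← h]; group, fun h => by rw [h]; group⟩
      rw [h2, mul_one]
      have h3 : (MonoidAlgebra.mapDomainAlgHom F F Va.subtype (rho.q r)).coeff =
          Finsupp.mapDomain Va.subtype (rho.q r).coeff := rfl
      rw [h3, coeff_single]
      by_cases hw : w' = w
      · subst hw
        rw [Finsupp.single_eq_same]
        have h4 : (u : V) * w' * (w' : V)⁻¹ = Va.subtype u := by
          rw [mul_inv_cancel_right]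
          rfl
        rw [h4]
        exact Finsupp.mapDomain_apply Va.subtype_injective _ _
      · rw [Finsupp.single_eq_of_ne (Ne.symm hw), map_zero, coeff_zero, Finsupp.zero_apply]
        refine Finsupp.mapDomain_of_notMem_range _ _ ?_
        rintro ⟨u', hu'⟩
        apply hw
        have h5 : (w : V) * (w' : V)⁻¹ ∈ Va ⊓ W := by
          refine ⟨?_, W.mul_mem w.2 (W.inv_mem w'.2)⟩
          have h6 : (w : V) * (w' : V)⁻¹ = (u : V)⁻¹ * u' := by
            have h7 : (u' : V) = (u : V) * w * (w' : V)⁻¹ := hu'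
            rw [h7]
            group
          rw [h6]
          exact Va.mul_mem (Va.inv_mem u.2) u'.2
        rw [hdis, Subgroup.mem_bot] at h5
        exact Subtype.ext (mul_inv_eq_one.1 h5).symm
  have hdec : ∀ v : V, ∃ (u : Va) (w : W), (u : V) * w = v := by
    intro v
    have h1 : v ∈ Va ⊔ W := by
      rw [hsup]
      exact Subgroup.mem_top v
    obtain ⟨u, hu, w, hw, h2⟩ := Subgroup.mem_sup.1 h1
    exact ⟨⟨u, hu⟩, ⟨w, hw⟩, h2⟩
  refine ⟨⟨q, fun r => ?_, fun y => ?_, fun x hx => ?_⟩, hqs⟩
  · have h1 : algebraMap R (MonoidAlgebra R1 W) r = single 1 (algebraMap R R1 r) := rfl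
    rw [h1, hqs, rho.sc, AlgHom.commutes]
    simp
  · induction y using MonoidAlgebra.induction_linear with
    | zero => exact ⟨0, map_zero q⟩
    | add a b ha hb =>
      obtain ⟨x, rfl⟩ := ha
      obtain ⟨x', rfl⟩ := hb
      exact ⟨x + x', map_add q x x'⟩
    | single v a =>
      obtain ⟨u, w, rfl⟩ := hdec v
      obtain ⟨r, hr⟩ := rho.surj (single u a)
      refine ⟨single w r, ?_⟩
      rw [hqs, hr]
      have h1 : MonoidAlgebra.mapDomainAlgHom F F Va.subtype (single u a) = single (u : V) a :=
        MonoidAlgebra.mapDomain_single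
      have h2 : MonoidAlgebra.of F V (w : V) = single (w : V) (1 : F) := rfl
      rw [h1, h2, single_mul_single, mul_one]
  · have h1 : ∀ w : W, rho.q (x.coeff w) = 0 := by
      intro w
      apply MonoidAlgebra.ext
      apply Finsupp.ext
      intro u
      rw [← hc, hx]
      rfl
    choose y hy using fun w => rho.ker _ (h1 w)
    have hWf : Finite W := inferInstance
    cases nonempty_fintype W
    refine ⟨ofCoeff (Finsupp.equivFunOnFinite.symm y), ?_⟩
    apply MonoidAlgebra.ext
    apply Finsupp.ext
    intro w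
    rw [coeff_smul, Finsupp.smul_apply, coeff_ofCoeff]
    exact hy w

end Pool.Agent.PFD.D3.H35
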