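import Pool.Agent.PFD.StmtsD3

/-! PFD, row PAC: the linear action on polynomials. -/

set_option autoImplicit false

namespace Pool.Agent.PFD.D3.H35

open MvPolynomial

theorem pac : PacStmt := by
  intro R E B _ _ J _ _ D
  refine ⟨fun p => ?_, fun e g p => ?_, fun e b j => ?_, fun e p d hp => ?_⟩
  · have h : Lb D 1 = AlgHom.id R _ := by
      apply MvPolynomial.algHom_ext
      rintro ⟨b, j⟩
      unfold Lb
      rw [aeval_X]
      simp only [map_one, AlgHom.id_apply]
      rw [Finset.sum_eq_single j]
      · rw [Matrix.one_apply_eq, C_1, one_mul]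
      · intro k _ hk
        rw [Matrix.one_apply_ne hk, C_0, zero_mul]
      · intro h
        exact absurd (Finset.mem_univ j) h
    rw [h]
    rfl
  · have h : Lb D (e * g) = (Lb D e).comp (Lb D g) := by
      apply MvPolynomial.algHom_ext
      rintro ⟨b, j⟩
      rw [AlgHom.comp_apply]
      unfold Lb
      rw [aeval_X, aeval_X, map_sum]
      simp only [map_mul, Matrix.mul_apply, map_sum, aeval_X, algHom_C, MvPolynomial.algebraMap_eq,
        Finset.sum_mul, Finset.mul_sum]
      rw [Finset.sum_comm]
      refine Finset.sum_congr rfl fun k _ => Finset.sum_congr rfl fun l _ => ?_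
      ring
    rw [h]
    rfl
  · unfold Lb
    rw [aeval_X]
  · unfold Lb
    have h := hp.aeval (n := 1) (fun i : Σ b, J b => ∑ k : J i.1, C (D i.1 e k i.2) *
      (X ⟨i.1, k⟩ : MvPolynomial (Σ b, J b) R)) (fun i => by
        refine IsHomogeneous.sum _ _ _ fun k _ => ?_
        have h1 := (isHomogeneous_C (Σ b, J b) (D i.1 e k i.2)).mul
          (isHomogeneous_X R (⟨i.1, k⟩ : Σ b, J b))
        rwa [zero_add] at h1)
    rwa [one_mul] at h

end Pool.Agent.PFD.D3.H35
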