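import Pool.Agent.PFD.StmtsD4

/-! PFD, rows BFS and CNK: base change of a Frobenius system, ranks of centres. -/

set_option autoImplicit false

open scoped TensorProduct

namespace Pool.Agent.PFD.D4.H35

open Pool.Agent.PFC.B1 (FS)

theorem bfs : BfsStmt := by
  intro R K A I _ _ _ _ _ _ c
  obtain ⟨l, hl⟩ : ∃ l : K ⊗[R] A →ₗ[K] K, ∀ k a, l (k ⊗ₜ a) = algebraMap R K (c.lam a) * k := by
    refine ⟨(TensorProduct.AlgebraTensorModule.rid R K K).toLinearMap ∘ₗ c.lam.baseChange K,
      fun k a => ?_⟩
    rw [LinearMap.comp_apply, LinearMap.baseChange_tmul]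
    change TensorProduct.AlgebraTensorModule.rid R K K (k ⊗ₜ c.lam a) = _
    rw [TensorProduct.AlgebraTensorModule.rid_tmul, Algebra.smul_def]
  have hmv : ∀ (k : K) (r : R) (a : A), (algebraMap R K r * k) ⊗ₜ[R] a = k ⊗ₜ[R] (r • a) := by
    intro k r a
    rw [← Algebra.smul_def, TensorProduct.smul_tmul]
  refine ⟨⟨l, fun i => 1 ⊗ₜ c.b i, fun i => 1 ⊗ₜ c.b' i, fun x => ?_, fun x => ?_⟩,
    fun _ => rfl, fun _ => rfl, hl, fun hs x y => ?_⟩
  · induction x using TensorProduct.induction_on with
    | zero => simp
    | tmul k a =>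
      have h1 : ∀ i, l (1 ⊗ₜ c.b' i * k ⊗ₜ a) • (1 : K) ⊗ₜ[R] c.b i =
          k ⊗ₜ[R] (c.lam (c.b' i * a) • c.b i) := by
        intro i
        rw [Algebra.TensorProduct.tmul_mul_tmul, one_mul, hl, TensorProduct.smul_tmul',
          smul_eq_mul, mul_one, hmv]
      rw [Finset.sum_congr rfl fun i _ => h1 i, ← TensorProduct.tmul_sum, c.h1]
    | add x y hx hy =>
      simp only [mul_add, map_add, add_smul, Finset.sum_add_distrib]
      rw [hx, hy]
  · induction x using TensorProduct.induction_on with
    | zero => simp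
    | tmul k a =>
      have h1 : ∀ i, l (k ⊗ₜ a * 1 ⊗ₜ c.b i) • (1 : K) ⊗ₜ[R] c.b' i =
          k ⊗ₜ[R] (c.lam (a * c.b i) • c.b' i) := by
        intro i
        rw [Algebra.TensorProduct.tmul_mul_tmul, mul_one, hl, TensorProduct.smul_tmul',
          smul_eq_mul, mul_one, hmv]
      rw [Finset.sum_congr rfl fun i _ => h1 i, ← TensorProduct.tmul_sum, c.h2]
    | add x y hx hy =>
      simp only [add_mul, map_add, add_smul, Finset.sum_add_distrib]
      rw [hx, hy]
  · change l (x * y) = l (y * x)
    induction x using TensorProduct.induction_on with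
    | zero => simp
    | tmul k a =>
      induction y using TensorProduct.induction_on with
      | zero => simp
      | tmul k' a' =>
        rw [Algebra.TensorProduct.tmul_mul_tmul, Algebra.TensorProduct.tmul_mul_tmul, hl, hl, hs,
          mul_comm k k']
      | add x y hx hy => rw [mul_add, add_mul, map_add, map_add, hx, hy]
    | add x y hx hy => rw [mul_add, add_mul, map_add, map_add, hx, hy]

theorem cnk : CnkStmt := by
  classical
  intro R K A1 _ _ _ _ _ _ _ _ _ _
  obtain ⟨e, he⟩ : ∃ e, e = Module.Free.chooseBasis R A1 := ⟨_, rfl⟩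
  obtain ⟨g, hg⟩ : ∃ g : A1 →ₗ[R] (Module.Free.ChooseBasisIndex R A1 → A1),
      ∀ a i, g a i = a * e i - e i * a := by
    refine ⟨LinearMap.pi fun i => LinearMap.mulRight R (e i) - LinearMap.mulLeft R (e i),
      fun a i => ?_⟩
    rw [LinearMap.pi_apply, LinearMap.sub_apply, LinearMap.mulRight_apply,
      LinearMap.mulLeft_apply]
  -- the centre is the kernel
  have hker : LinearMap.ker g = Subalgebra.toSubmodule (Subalgebra.center R A1) := by
    ext a
    rw [LinearMap.mem_ker, Subalgebra.mem_toSubmodule, Subalgebra.mem_center_iff]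
    constructor
    · intro h b
      have h1 : ∀ i, a * e i = e i * a := by
        intro i
        have := congrFun h i
        rw [hg, Pi.zero_apply, sub_eq_zero] at this
        exact this
      have h2 : LinearMap.mulRight R a = LinearMap.mulLeft R a := by
        apply e.ext
        intro i
        rw [LinearMap.mulRight_apply, LinearMap.mulLeft_apply, h1]
      exact LinearMap.congr_fun h2 b
    · intro h
      funext i
      rw [hg, Pi.zero_apply, h, sub_self]
  -- base change of the kernel
  obtain ⟨gK, hgK⟩ : ∃ gK : K ⊗[R] A1 →ₗ[K] K ⊗[R] (Module.Free.ChooseBasisIndex R A1 → A1),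
      gK = TensorProduct.AlgebraTensorModule.lTensor K K g := ⟨_, rfl⟩
  have hpi : ∀ (x : K ⊗[R] A1) i, TensorProduct.piRight R K K (fun _ => A1) (gK x) i =
      x * (1 ⊗ₜ e i) - (1 ⊗ₜ e i) * x := by
    intro x i
    induction x using TensorProduct.induction_on with
    | zero => simp
    | tmul k a =>
      rw [hgK, TensorProduct.AlgebraTensorModule.lTensor_tmul, TensorProduct.piRight_apply,
        TensorProduct.piRightHom_tmul]
      change k ⊗ₜ[R] (g a i) = _
      rw [hg, TensorProduct.tmul_sub,
        Algebra.TensorProduct.tmul_mul_tmul, Algebra.TensorProduct.tmul_mul_tmul, mul_one, one_mul]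
    | add x y hx hy =>
      rw [map_add, map_add, Pi.add_apply, hx, hy]
      noncomm_ring
  have hkerK : LinearMap.ker gK = Subalgebra.toSubmodule (Subalgebra.center K (K ⊗[R] A1)) := by
    ext x
    rw [LinearMap.mem_ker, Subalgebra.mem_toSubmodule, Subalgebra.mem_center_iff]
    constructor
    · intro h b
      have h1 : ∀ i, x * (1 ⊗ₜ e i) = (1 ⊗ₜ e i) * x := by
        intro i
        have h2 := hpi x i
        rw [h, map_zero, Pi.zero_apply] at h2
        exact (sub_eq_zero.1 h2.symm)
      have h2 : ∀ a : A1, (1 ⊗ₜ[R] a) * x = x * (1 ⊗ₜ[R] a) := by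
        intro a
        have h3 : (LinearMap.mulRight R x) ∘ₗ (TensorProduct.mk R K A1 1) =
            (LinearMap.mulLeft R x) ∘ₗ (TensorProduct.mk R K A1 1) := by
          apply e.ext
          intro i
          exact (h1 i).symm
        exact LinearMap.congr_fun h3 a
      induction b using TensorProduct.induction_on with
      | zero => rw [zero_mul, mul_zero]
      | tmul k a =>
        have h4 : k ⊗ₜ[R] a = k • ((1 : K) ⊗ₜ[R] a) := by
          rw [TensorProduct.smul_tmul', smul_eq_mul, mul_one]
        rw [h4, smul_mul_assoc, mul_smul_comm, h2]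
      | add b b' hb hb' => rw [add_mul, mul_add, hb, hb']
    · intro h
      apply (TensorProduct.piRight R K K (fun _ => A1)).injective
      rw [map_zero]
      funext i
      rw [hpi, Pi.zero_apply, h, sub_self]
  have h1 : Module.finrank K (Subalgebra.center K (K ⊗[R] A1)) =
      Module.finrank K (LinearMap.ker gK) := by
    rw [hkerK]
    rfl
  have h2 : Module.finrank R (Subalgebra.center R A1) = Module.finrank R (LinearMap.ker g) := by
    rw [hker]
    rfl
  rw [h1, h2, hgK, ← (LinearMap.tensorKerEquiv K K g).finrank_eq]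
  exact Module.finrank_baseChange

end Pool.Agent.PFD.D4.H35
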